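import Mathlib
import Pool.Agent.Q136.ArrHighD

/-!
MP_ae8f8e_co: a limit object that is uniquely coupleable with every member of `UCouple[ℓ]` has rank
at most `ℓ`.
-/

open MeasureTheory Measure ProbabilityTheory Set
open Pool.Agent.Q136.Arr
open scoped ENNReal

namespace Pool.Agent.Results.MP_ae8f8e_co.UCoupleRank

variable {X : Type} [MeasurableSpace X] (μ : Measure X) [IsProbabilityMeasure μ]

/-- the indices above level `ℓ` -/
abbrev Hi (ℓ : ℕ) : Type := {A : NF ℕ // A.1.card ∈ {n : ℕ | ℓ < n}}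

/-- the test language: one predicate for each member of a finite family of large finite sets -/
def testLang {ℓ : ℕ} (s : Finset (Hi ℓ)) : Lang where
  Pred := s
  fin := inferInstance
  ar A := A.1.1.1.card
  ar_pos A := Finset.card_pos.2 A.1.1.2

/-- the full index set -/
def fullIdx (k : ℕ) (hk : 0 < k) : NF (Fin k) := ⟨Finset.univ, ⟨⟨0, hk⟩, Finset.mem_univ _⟩⟩

/-- the test structure -/
def testEucl {ℓ : ℕ} (s : Finset (Hi ℓ)) (t : Hi ℓ → Set X) (ht : ∀ A, MeasurableSet (t A)) :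
    Eucl (testLang s) X where
  peon A := {x | x (fullIdx _ ((testLang s).ar_pos A)) ∈ t A.1}
  meas A := (measurable_pi_apply _) (ht A.1)

lemma testEucl_compatible {ℓ : ℕ} (s : Finset (Hi ℓ)) (t : Hi ℓ → Set X)
    (ht : ∀ A, MeasurableSet (t A)) : (testEucl s t ht).Compatible {n | ℓ < n} := by
  intro A x y hxy
  have h : (fullIdx _ ((testLang s).ar_pos A)).1.card ∈ {n | ℓ < n} := by
    change ℓ < (Finset.univ : Finset (Fin ((testLang s).ar A))).card
    rw [Finset.card_univ, Fintype.card_fin]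
    exact A.1.2
  change x _ ∈ t A.1 ↔ y _ ∈ t A.1
  rw [hxy _ h]

/-- the ground atom attached to a member of the family -/
def testAtom {ℓ : ℕ} (s : Finset (Hi ℓ)) (A : s) : (testLang s).Atom ℕ :=
  ⟨A, (A.1.1.1.orderEmbOfFin rfl).toEmbedding⟩

lemma arr_testAtom {ℓ : ℕ} (s : Finset (Hi ℓ)) (t : Hi ℓ → Set X)
    (ht : ∀ A, MeasurableSet (t A)) (θ : NF ℕ → X) (A : s) :
    (testEucl s t ht).arr θ (testAtom s A) ↔ θ A.1.1 ∈ t A.1 := by
  have h : NF.map (testAtom s A).2 (fullIdx _ ((testLang s).ar_pos A)) = A.1.1 := by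
    apply Subtype.ext
    change Finset.univ.map (A.1.1.1.orderEmbOfFin rfl).toEmbedding = A.1.1.1
    apply Finset.coe_injective
    rw [Finset.coe_map, Finset.coe_univ, Set.image_univ]
    exact Finset.range_orderEmbOfFin _ _
  change θ (NF.map (testAtom s A).2 (fullIdx _ ((testLang s).ar_pos A))) ∈ t A.1 ↔ _
  rw [h]

/-- If the array of `N` is independent of the arrays of all test structures, then it is independent
of all variables above level `ℓ`. -/
lemma indep_of_tests {L : Lang} (N : Eucl L X) (ℓ : ℕ)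
    (h : ∀ (s : Finset (Hi ℓ)) (t : Hi ℓ → Set X) (ht : ∀ A, MeasurableSet (t A)),
      (N.sum (testEucl s t ht)).law μ
        = indepCoupling (N.law μ) ((testEucl s t ht).law μ)) :
    IndepFun N.arr (fun (θ : NF ℕ → X) (A : Hi ℓ) => θ A.1) (iid μ) := by
  classical
  rw [indepFun_iff_measure_inter_preimage_eq_mul]
  intro E F hE hF
  have hrm : Measurable (fun (θ : NF ℕ → X) (A : Hi ℓ) => θ A.1) := by fun_prop
  have hlawr : (iid μ).map (fun (θ : NF ℕ → X) (A : Hi ℓ) => θ A.1)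
      = infinitePi (fun _ : Hi ℓ => μ) :=
    Measure.map_infinitePi_infinitePi_of_inj (P := fun _ : NF ℕ => μ)
      (f := fun A : Hi ℓ => A.1) Subtype.val_injective
  -- boxes
  have hbox : ∀ (s : Finset (Hi ℓ)) (t : Hi ℓ → Set X), (∀ A, MeasurableSet (t A)) →
      iid μ (N.arr ⁻¹' E ∩ (fun (θ : NF ℕ → X) (A : Hi ℓ) => θ A.1) ⁻¹' (Set.pi (s : Set (Hi ℓ)) t))
        = iid μ (N.arr ⁻¹' E) * ∏ A ∈ s, μ (t A) := by
    intro s t ht
    have hl := h s t ht
    obtain ⟨E', hE'⟩ : ∃ E' : Set ((testLang s).Str ℕ),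
      E' = {k | ∀ A : s, k (testAtom s A)} := ⟨_, rfl⟩
    have hE'm : MeasurableSet E' := by
      have : E' = ⋂ A : s, {k | k (testAtom s A)} := by
        rw [hE']; ext k; simp
      rw [this]
      exact MeasurableSet.iInter fun A => measurableSet_setOfPred.2 (measurable_pi_apply _)
    have hS : MeasurableSet {K : (L.sum (testLang s)).Str ℕ | reduct₁ K ∈ E ∧ reduct₂ K ∈ E'} :=
      (measurable_reduct₁ hE).inter (measurable_reduct₂ hE'm)
    have hev : ∀ θ : NF ℕ → X, (testEucl s t ht).arr θ ∈ E' ↔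
        (fun A : Hi ℓ => θ A.1) ∈ Set.pi (s : Set (Hi ℓ)) t := by
      intro θ
      rw [hE']
      constructor
      · intro hθ A hA
        exact (arr_testAtom s t ht θ ⟨A, hA⟩).1 (hθ ⟨A, hA⟩)
      · intro hθ A
        exact (arr_testAtom s t ht θ A).2 (hθ A.1 A.2)
    have h1 : (N.sum (testEucl s t ht)).law μ {K | reduct₁ K ∈ E ∧ reduct₂ K ∈ E'}
        = iid μ (N.arr ⁻¹' E ∩ (fun (θ : NF ℕ → X) (A : Hi ℓ) => θ A.1) ⁻¹'
          (Set.pi (s : Set (Hi ℓ)) t)) := by
      unfold Eucl.law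
      rw [Measure.map_apply (Eucl.measurable_arr _) hS]
      congr 1
      ext θ
      change (reduct₁ ((N.sum (testEucl s t ht)).arr θ) ∈ E ∧
        reduct₂ ((N.sum (testEucl s t ht)).arr θ) ∈ E') ↔
        (N.arr θ ∈ E ∧ (fun A : Hi ℓ => θ A.1) ∈ Set.pi (s : Set (Hi ℓ)) t)
      rw [arr_sum, reduct₁_join, reduct₂_join, hev]
    have h2 : indepCoupling (N.law μ) ((testEucl s t ht).law μ)
        {K | reduct₁ K ∈ E ∧ reduct₂ K ∈ E'}
        = N.law μ E * (testEucl s t ht).law μ E' := by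
      unfold indepCoupling
      rw [Measure.map_apply Pool.Agent.Q136.Arr.measurable_join hS, ← Measure.prod_prod]
      rfl
    have h3 : (testEucl s t ht).law μ E' = ∏ A ∈ s, μ (t A) := by
      unfold Eucl.law
      rw [Measure.map_apply (Eucl.measurable_arr _) hE'm]
      have h4 : (testEucl s t ht).arr ⁻¹' E' = (fun (θ : NF ℕ → X) (A : Hi ℓ) => θ A.1) ⁻¹'
          (Set.pi (s : Set (Hi ℓ)) t) := by
        ext θ
        exact hev θ
      rw [h4, ← Measure.map_apply hrm (MeasurableSet.pi s.countable_toSet fun A _ => ht A),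
        hlawr, infinitePi_pi _ (fun A _ => ht A)]
    have h5 : N.law μ E = iid μ (N.arr ⁻¹' E) := by
      unfold Eucl.law
      rw [Measure.map_apply N.measurable_arr hE]
    rw [← h1, hl, h2, h3, h5]
  obtain ⟨c, hc⟩ : ∃ c, c = iid μ (N.arr ⁻¹' E) := ⟨_, rfl⟩
  rw [← hc] at hbox ⊢
  have hmE : MeasurableSet (N.arr ⁻¹' E) := N.measurable_arr hE
  by_cases hc0 : c = 0
  · rw [hc0, zero_mul]
    refine measure_mono_null inter_subset_left ?_
    rw [← hc, hc0]
  have hctop : c ≠ ⊤ := by rw [hc]; exact measure_ne_top _ _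
  obtain ⟨ν, hν⟩ : ∃ ν : Measure (Hi ℓ → X), ν = c⁻¹ • (((iid μ).restrict (N.arr ⁻¹' E)).map
    (fun (θ : NF ℕ → X) (A : Hi ℓ) => θ A.1)) := ⟨_, rfl⟩
  have hνval : ∀ G : Set (Hi ℓ → X), MeasurableSet G → ν G = c⁻¹ *
      iid μ (N.arr ⁻¹' E ∩ (fun (θ : NF ℕ → X) (A : Hi ℓ) => θ A.1) ⁻¹' G) := by
    intro G hG
    rw [hν, Measure.smul_apply, smul_eq_mul, Measure.map_apply hrm hG,
      Measure.restrict_apply (hrm hG), inter_comm]
  have hνeq : ν = infinitePi (fun _ : Hi ℓ => μ) := by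
    refine eq_infinitePi _ fun s t ht => ?_
    rw [hνval _ (MeasurableSet.pi s.countable_toSet fun A _ => ht A), hbox s t ht, ← mul_assoc,
      ENNReal.inv_mul_cancel hc0 hctop, one_mul]
  have h6 := hνval F hF
  rw [hνeq, ← hlawr, Measure.map_apply hrm hF] at h6
  rw [h6, ← mul_assoc, ENNReal.mul_inv_cancel hc0 hctop, one_mul]

/-- For every atomless standard probability space `(X, μ)`, every `ℓ ∈ ℕ`, every finite relational
language `L`, every universal theory `T` in `L` and every limit object `φ` of `T`: if `φ` is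
uniquely coupleable with every member of `UCouple[ℓ]` (over every theory), then `φ` has rank at most
`ℓ`. -/
theorem result (X : Type) [MeasurableSpace X] [StandardBorelSpace X] (μ : Measure X)
    [IsProbabilityMeasure μ] [NullSingletonClass μ] (ℓ : ℕ) (L : Lang) (T : UTheory L)
    (φ : Measure (L.Str ℕ)) (hφ : IsLimit μ T φ)
    (h : ∀ (L' : Lang) (T' : UTheory L') (ψ : Measure (L'.Str ℕ)), IsLimit μ T' ψ →
      InUCouple μ T' ψ ℓ → UniquelyCoupleable μ T T' φ ψ) :
    RankLE μ T φ ℓ := by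
  obtain ⟨N, hN, hlaw⟩ := hφ
  have hind : IndepFun N.arr (fun (θ : NF ℕ → X) (A : Hi ℓ) => θ A.1) (iid μ) := by
    refine indep_of_tests μ N ℓ fun s t ht => ?_
    have hT' : IsLimit μ (fun _ => univ : UTheory (testLang s)) ((testEucl s t ht).law μ) :=
      ⟨testEucl s t ht, Filter.Eventually.of_forall fun _ _ _ => trivial, rfl⟩
    have hU := h (testLang s) (fun _ => univ) ((testEucl s t ht).law μ) hT'
      (inUCouple_of_high μ (testEucl s t ht) _ (testEucl_compatible s t ht))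
    rw [hlaw]
    refine hU _ ⟨⟨N.sum (testEucl s t ht), ?_, rfl⟩, ?_, ?_⟩
    · filter_upwards [hN] with θ hθ n e
      rw [arr_sum]
      exact ⟨hθ n e, trivial⟩
    · unfold Eucl.law
      rw [Measure.map_map measurable_reduct₁ (Eucl.measurable_arr _), ← hlaw]
      unfold Eucl.law
      congr 1
    · unfold Eucl.law
      rw [Measure.map_map measurable_reduct₂ (Eucl.measurable_arr _)]
      congr 1
  have hweak : IsWeaklyCompatible μ T φ {n | ℓ < n} := ⟨N, ⟨hN, hlaw⟩, hind⟩
  rcases Nat.eq_zero_or_pos ℓ with h0 | hpos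
  · exact compatible_of_all μ _ (fun n hn => by rw [h0]; exact hn) hweak
  · have h1 : (1 : ℕ) ∉ {n | ℓ < n} := by
      change ¬ ℓ < 1
      omega
    have h2 := compatible_of_one_notMem μ h1 hweak
    have h3 : {n | n ∉ {n | ℓ < n}} = {n | n ≤ ℓ} := by
      ext n
      exact not_lt (a := ℓ) (b := n)
    rw [h3] at h2
    exact h2

end Pool.Agent.Results.MP_ae8f8e_co.UCoupleRank
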